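import Pool.Agent.Helper35.KM.Shift

/-!
# From the average over the shifts to finitely many grids (helper91)
-/

set_option autoImplicit false

namespace Pool.Agent.Helper91.SX

open Pool.Agent.Helper35.KM

/-- The conversion: `J` grids indexed by natural numbers (a larger index is a smaller value). -/
theorem grids_of_core {k J : ℕ} {lam : ℝ} (hJ : 0 < J)
    (hcore : ∀ w : ℝ, 0 < w → (J : ℝ) * (((k : ℝ) / 2) * lam) * w ≤
      ∑ σ ∈ Finset.range J,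
        min (bot J σ w) (((k : ℝ) / 2) * w - (((k : ℝ) - 1) / 2) * bot J σ w))
    {E : Type} [Fintype E] [DecidableEq E] (w : E → ℝ) {s Γ : ℝ} (hs : 0 < s)
    (hw : ∀ e, s ≤ w e ∧ w e ≤ Γ * s) :
    ∃ (cls : Fin J → E → ℕ) (D : Fin J → ℕ → ℝ),
      (∀ σ i, 0 ≤ D σ i) ∧ (∀ σ i j, i < j → 2 * D σ j ≤ D σ i) ∧
      (∀ σ e, D σ (cls σ e) ≤ w e ∧ w e ≤ 2 * D σ (cls σ e)) ∧
      ∀ e, (J : ℝ) * (((k : ℝ) / 2) * lam) * w e ≤
        ∑ σ, min (D σ (cls σ e)) (((k : ℝ) / 2) * w e - (((k : ℝ) - 1) / 2) * D σ (cls σ e)) := by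
  have hw0 : ∀ e, 0 < w e := fun e => hs.trans_le (hw e).1
  set N0 : ℤ := ⌊Real.logb 2 (Γ * s)⌋ with hN0
  have hcls : ∀ (σ : ℕ) (e : E), Helper35.KM.cls J σ (w e) ≤ N0 := by
    intro σ e
    refine Int.floor_le_floor ?_
    have h1 : Real.logb 2 (w e) ≤ Real.logb 2 (Γ * s) :=
      Real.logb_le_logb_of_le (by norm_num) (hw0 e) (hw e).2
    have h2 : (0 : ℝ) ≤ (σ : ℝ) / J := by positivity
    linarith
  have hD : ∀ (σ : ℕ) (e : E),
      (2 : ℝ) ^ (((N0 : ℝ) - ((N0 - Helper35.KM.cls J σ (w e)).toNat : ℝ)) + (σ : ℝ) / J) =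
        bot J σ (w e) := by
    intro σ e
    have h1 : (((N0 - Helper35.KM.cls J σ (w e)).toNat : ℤ)) =
        N0 - Helper35.KM.cls J σ (w e) := Int.toNat_of_nonneg (by have := hcls σ e; omega)
    have h2 : (((N0 - Helper35.KM.cls J σ (w e)).toNat : ℕ) : ℝ) =
        (N0 : ℝ) - (Helper35.KM.cls J σ (w e) : ℝ) := by
      have h3 : ((((N0 - Helper35.KM.cls J σ (w e)).toNat : ℤ)) : ℝ) =
          ((N0 - Helper35.KM.cls J σ (w e) : ℤ) : ℝ) := by rw [h1]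
      push_cast at h3
      exact_mod_cast h3
    rw [h2]
    unfold bot
    congr 1
    ring
  refine ⟨fun σ e => (N0 - Helper35.KM.cls J σ (w e)).toNat,
    fun σ i => (2 : ℝ) ^ (((N0 : ℝ) - (i : ℝ)) + ((σ : ℕ) : ℝ) / J), fun σ i => by positivity,
    fun σ i j hij => ?_, fun σ e => ?_, fun e => ?_⟩
  · have h1 : (i : ℝ) + 1 ≤ j := by exact_mod_cast hij
    calc 2 * (2 : ℝ) ^ (((N0 : ℝ) - (j : ℝ)) + ((σ : ℕ) : ℝ) / J) =
          (2 : ℝ) ^ (1 + (((N0 : ℝ) - (j : ℝ)) + ((σ : ℕ) : ℝ) / J)) := by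
          rw [Real.rpow_add (by norm_num) 1, Real.rpow_one]
      _ ≤ (2 : ℝ) ^ (((N0 : ℝ) - (i : ℝ)) + ((σ : ℕ) : ℝ) / J) :=
          Real.rpow_le_rpow_of_exponent_le (by norm_num) (by linarith)
  · have h1 := hD σ e
    constructor
    · change (2 : ℝ) ^ _ ≤ _
      rw [h1]
      exact bot_le J σ (hw0 e)
    · change _ ≤ 2 * (2 : ℝ) ^ _
      rw [h1]
      exact (lt_two_bot J σ (hw0 e)).le
  · refine (hcore (w e) (hw0 e)).trans (le_of_eq ?_)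
    rw [Finset.sum_range]
    refine Finset.sum_congr rfl fun σ _ => ?_
    have h1 := hD σ e
    change _ = min ((2 : ℝ) ^ _) (_ - _ * (2 : ℝ) ^ _)
    rw [h1]

end Pool.Agent.Helper91.SX
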