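import Pool.Agent.Helper91.SX.Grids
import Pool.Agent.Helper35.KM.Avg

/-!
# The grids with the exact constant (helper35: average over the shifts; helper91: conversion)
-/

set_option autoImplicit false

namespace Pool.Agent.Helper91.SX

/-- F6'. `J` depends on `k` and `lam` only. -/
theorem grids_x {k : ℕ} (hk : 1 ≤ k) {lam : ℝ} (hlam : lam < Real.logb 2 (1 + 1 / (k : ℝ))) :
    ∃ J : ℕ, 0 < J ∧ ∀ {E : Type} [Fintype E] [DecidableEq E] (w : E → ℝ) {s Γ : ℝ}, 0 < s →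
      (∀ e, s ≤ w e ∧ w e ≤ Γ * s) →
      ∃ (cls : Fin J → E → ℕ) (D : Fin J → ℕ → ℝ),
        (∀ σ i, 0 ≤ D σ i) ∧ (∀ σ i j, i < j → 2 * D σ j ≤ D σ i) ∧
        (∀ σ e, D σ (cls σ e) ≤ w e ∧ w e ≤ 2 * D σ (cls σ e)) ∧
        ∀ e, (J : ℝ) * (((k : ℝ) / 2) * lam) * w e ≤
          ∑ σ, min (D σ (cls σ e)) (((k : ℝ) / 2) * w e - (((k : ℝ) - 1) / 2) * D σ (cls σ e)) := by
  obtain ⟨J, hJ, h⟩ := Pool.Agent.Helper35.KM.avg_lam (k := (k : ℝ)) (by exact_mod_cast hk) hlam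
  refine ⟨J, hJ, ?_⟩
  intro E _ _ w s Γ hs hw
  exact grids_of_core hJ h w hs hw

end Pool.Agent.Helper91.SX
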